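import Pool.Agent.W790.EC.MRW
import Pool.Agent.W179.EC.Decw
import Pool.Agent.W479.EC.M2
import Pool.Agent.W999.GA.TK

/-!
Project EC (helper78), part M3: the Matomaki-Radziwill theorem with a general radial weight, in
residue classes, without hypotheses.
-/

set_option autoImplicit false

namespace Pool.Agent.W790.EC

open Pool.Agent.W78.GA Pool.Agent.W78.EC

theorem mrw : S_MRW := by
  have hD : (0 : ℤ) ^ 2 < 4 * 1 := by norm_num
  have hlat : S_LAT 0 1 := Pool.Agent.W45.GA.lat hD
  have hred : S_RED 0 1 := Pool.Agent.W322.GA.red hD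
  have hlati : S_LATI 0 1 := Pool.Agent.W322.GA.lati_of hD hlat hred
  have hls : S_LS 0 1 := Pool.Agent.W327.GA.ls hD
  exact mrw_of (Pool.Agent.W179.EC.decw hD hlat hlati (Pool.Agent.W999.GA.tk_of hD hlat hlati))
    (Pool.Agent.W479.EC.mom0w hD hls hlat) (Pool.Agent.W479.EC.momw hD hls hlat hlati)

end Pool.Agent.W790.EC
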