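import Pool.Agent.W790.EC.MRWGen
import Pool.Agent.W240.GA.LevA
import Pool.Agent.W240.GA.LevB
import Pool.Agent.W397.GA.Cnt
import Pool.Agent.W586.GA.Mach
import Pool.Agent.W45.GA.Lat
import Pool.Agent.W322.GA.Red
import Pool.Agent.W322.GA.LatI
import Pool.Agent.W327.GA.LS
import Pool.Agent.W327.GA.Ang1
import Pool.Agent.W397.GA.Ang2
import Pool.Agent.W191.GA.Sparse
import Pool.Agent.W194.GA.Sele
import Pool.Agent.W109.GA.Fin
import Pool.Agent.W108.FP.Mompf
import Pool.Agent.W125.FP.Cellf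
import Pool.Agent.W320.FP.Twq
import Pool.Agent.W613.FP.Eleq

/-!
Project EC (helper78), part M3: the Matomaki-Radziwill theorem with a general radial weight, in
residue classes.
-/

set_option autoImplicit false

namespace Pool.Agent.W790.EC

open Finset Filter
open Pool.Agent.H376R2.MR
open Pool.Agent.W78.GA Pool.Agent.W78.GC Pool.Agent.W78.EC
open Pool.Agent.W84.FP (Tw PF S_MOMPF S_CELLF c1 S_ELEQ abs_F_le)

open scoped Classical in
/-- the Liouville function of the norm on the set `S` -/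
noncomputable def FS (S : Gi → Prop) (z : Gi) : ℤ := if S z then gl z else 0

theorem GS_eq (wt : ℝ → ℝ) (S : Gi → Prop) (Y : ℝ) (k : ℤ) : GS wt S Y k = GFw wt (FS S) Y k := by
  unfold GS GFw DPG
  refine Finset.sum_congr rfl fun z _ => ?_
  unfold FS
  by_cases h : S z
  · simp only [if_pos h]
    push_cast
    ring
  · simp only [if_neg h, Int.cast_zero, zero_mul]

theorem cls_mul {q : ℕ} {S : Gi → Prop} (hS : Cls q S) {v u z : Gi} {n : ℕ} (hv : c1 q v)
    (hn : Nat.Coprime n q) (hn4 : n % 4 = 1) (h : v * u = (n : Gi) * z) : S u ↔ S z := by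
  obtain ⟨⟨y, hy⟩, hx, hx4⟩ := hv
  have e1 : S ((v.re : Gi) * u) ↔ S u := hS.scal v.re u hx hx4
  have e2 : S (v * u) ↔ S ((v.re : Gi) * u) := by
    refine hS.per _ _ ?_ ?_
    · refine ⟨-(y * u.im), ?_⟩
      simp only [QuadraticAlgebra.re_mul, QuadraticAlgebra.re_intCast,
        QuadraticAlgebra.im_intCast, Int.cast_id]
      rw [hy]
      ring
    · refine ⟨y * u.re, ?_⟩
      simp only [QuadraticAlgebra.im_mul, QuadraticAlgebra.re_intCast,
        QuadraticAlgebra.im_intCast, Int.cast_id]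
      rw [hy]
      ring
  have e3 : S (((n : ℤ) : Gi) * z) ↔ S z :=
    hS.scal (n : ℤ) z (Nat.isCoprime_iff_coprime.2 hn) (by omega)
  rw [Int.cast_natCast, ← h] at e3
  rw [← e1, ← e2, e3]

theorem tw_of {q : ℕ} {S : Gi → Prop} (hS : Cls q S) {Ap Bp M : ℕ → Prop} {E : ℕ}
    {ρ : ℕ → ℤ} {ϖ : ℕ → Gi} (hE : Ele 0 1 Ap Bp M E ρ ϖ)
    (hAB : ∀ p, Ap p ∨ Bp p → Nat.Coprime p q ∧ p % 4 = 1) (hc : ∀ m, M m → c1 q (ϖ m)) :
    Tw M ϖ (FS S) := by
  classical
  have hD : (0 : ℤ) ^ 2 < 4 * 1 := by norm_num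
  refine ⟨?_, ?_⟩
  · intro z
    unfold FS
    split_ifs
    · rcases gl_eq z with h | h <;> rw [h] <;> simp
    · simp
  · intro m n u z hm hnm hu hz heq
    obtain ⟨p, p', hp, hp', hmp, _, _⟩ := hE.fac m hm
    have pp := (hE.prA p hp).1
    have pp' := (hE.prB p' hp').1
    have hn : Nat.Coprime n q ∧ n % 4 = 1 :=
      Pool.Agent.W320.FP.dvd_two pp pp' (hAB p (Or.inl hp)) (hAB p' (Or.inr hp'))
        (by rw [← hmp]; exact hnm)
    have hcol := cls_mul hS (hc m hm) hn.1 hn.2 heq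
    have hgl : gl u = gl z := by
      have hnm' := (hE.elt m hm).1
      have hm0 : m ≠ 0 := by rw [hmp]; exact Nat.mul_ne_zero pp.ne_zero pp'.ne_zero
      have hϖ : ϖ m ≠ 0 := by
        intro h
        rw [h, nm_zero] at hnm'
        exact hm0 hnm'.symm
      have hn0 : 0 < n := Nat.pos_of_ne_zero (fun h => by rw [h] at hn; omega)
      have e1 := congrArg gl heq
      rw [gl_mul hD hϖ (prim_ne_zero hu), gl_natCast_mul hn0 hD (prim_ne_zero hz)] at e1
      have e2 : gl (ϖ m) = 1 := by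
        unfold gl
        rw [hnm', hmp, lam_mul pp.ne_zero pp'.ne_zero, lam_prime pp, lam_prime pp']
        norm_num
      rw [e2, one_mul] at e1
      exact e1
    unfold FS
    by_cases h : S u
    · rw [if_pos h, if_pos (hcol.1 h), hgl]
    · rw [if_neg h, if_neg (fun h' => h (hcol.2 h'))]

/-- the Matomaki-Radziwill theorem with a general radial weight, in residue classes -/
theorem mrw_of (h1 : S_DECW 0 1) (h2 : S_MOM0W 0 1) (h3 : S_MOMW 0 1) : S_MRW := by
  intro q S hq h4 hS Λ wt hw η hη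
  have hD : (0 : ℤ) ^ 2 < 4 * 1 := by norm_num
  have hlat : S_LAT 0 1 := Pool.Agent.W45.GA.lat hD
  have hred : S_RED 0 1 := Pool.Agent.W322.GA.red hD
  have hls : S_LS 0 1 := Pool.Agent.W327.GA.ls hD
  have hang : S_ANG 0 1 := Pool.Agent.W397.GA.ang_of (Pool.Agent.W327.GA.ang1 hD)
    (Pool.Agent.W397.GA.ang2 hD)
  have hangi : S_ANGI 0 1 := Pool.Agent.W322.GA.angi_of hD hang hred
  have hmach : S_MACH := Pool.Agent.W586.GA.mach_of Pool.Agent.W240.GA.leva
    Pool.Agent.W240.GA.levb Pool.Agent.W397.GA.s_cnt Pool.Agent.W586.GA.upart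
  obtain ⟨Ap, Bp, M, E, ρ, ϖ, hE, hp, hc⟩ := Pool.Agent.W613.FP.eleq q hq h4
  obtain ⟨h, hh, Y₀, hmr⟩ := mrfw_of hD hmach h1 h2 (Pool.Agent.W108.FP.mompf hD hls) h3
    (Pool.Agent.W191.GA.sparse_of hD hang hlat) hls
    (Pool.Agent.W125.FP.cellf hD
      (Pool.Agent.W194.GA.sele_of hD hangi hlat (Pool.Agent.W109.GA.selb hD)))
    hlat hE (tw_of hS hE hp hc) hw η hη
  refine ⟨h, hh, Y₀, fun Y hY => ?_⟩
  have := hmr Y hY
  simp only [GS_eq]
  exact this

end Pool.Agent.W790.EC
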