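import Pool.Agent.W78.EC.Defs3
import Pool.Agent.W84.FP.MR

/-!
Project EC (helper78), part M3: the Matomaki-Radziwill theorem for a function `F`, a general radial
weight and all frequencies, from the abstract machine and its inputs (port of `W84/FP/MR.lean`).
-/

set_option autoImplicit false

namespace Pool.Agent.W790.EC

open Finset Filter
open Pool.Agent.H376R2.MR
open Pool.Agent.W78.GA Pool.Agent.W78.GC Pool.Agent.W78.EC
open Pool.Agent.W84.FP (Tw PF S_MOMPF S_CELLF c1 S_ELEQ abs_F_le)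

variable {t c : ℤ}

lemma wt_ne {Λ : ℝ} {wt : ℝ → ℝ} (hw : Rw Λ wt) {Z n : ℝ} (hZ : 0 < Z) (hn : 0 < n)
    (h : wt (Real.log n - Real.log Z) ≠ 0) : Z / Real.exp 1 ≤ n ∧ n ≤ Real.exp 1 * Z := by
  have h1 : |Real.log n - Real.log Z| < 1 := by
    by_contra hc
    exact h (hw.supp _ (not_lt.1 hc))
  rw [abs_lt] at h1
  constructor
  · rw [div_le_iff₀ (Real.exp_pos 1)]
    have h2 := Real.exp_le_exp.2 (show Real.log Z ≤ Real.log n + 1 by linarith)
    rwa [Real.exp_log hZ, Real.exp_add, Real.exp_log hn] at h2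
  · have h2 := Real.exp_le_exp.2 (show Real.log n ≤ 1 + Real.log Z by linarith)
    rwa [Real.exp_log hn, Real.exp_add, Real.exp_log hZ] at h2

theorem mrfw_of (hD : t ^ 2 < 4 * c) (hmach : S_MACH) (hdec : S_DECW t c)
    (hmom0 : S_MOM0W t c) (hmomp : S_MOMPF t c) (hmom : S_MOMW t c) (hsp : S_SPARSE t c)
    (hls : S_LS t c) (hcell : S_CELLF t c) (hlat : S_LAT t c)
    {Ap Bp M : ℕ → Prop} {E : ℕ} {ρ : ℕ → ℤ} {ϖ : ℕ → Qd t c} (hE : Ele t c Ap Bp M E ρ ϖ)
    {F : Qd t c → ℤ} (hF : Tw M ϖ F) {Λ : ℝ} {wt : ℝ → ℝ} (hw : Rw Λ wt) :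
    ∀ η : ℝ, 0 < η → ∃ h : ℝ, 1 ≤ h ∧ ∃ Y₀ : ℝ, ∀ Y : ℝ, Y₀ ≤ Y →
      ∑ k ∈ (FK ⌊Y / h⌋₊).erase 0, ‖GFw wt F Y k‖ ^ 2 ≤ η := by
  classical
  refine hmach (PF M ϖ) (mE M) (GFw wt F) ?_
  refine
    { m_nonneg := ?_, P_le := ?_, rich := hE.rich, cell_avg := hcell Ap Bp M E ρ ϖ hE, dec := ?_,
      mom_zero := hmom0 Λ wt hw F hF.bd, momP := hmomp Ap Bp M E ρ ϖ hE,
      mom := hmom Λ wt hw Ap Bp M E ρ ϖ hE F hF.bd, sparse := ?_ }
  · intro H v
    unfold mE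
    exact sum_nonneg fun p _ => by positivity
  · intro H v k
    unfold PF mE
    rw [norm_neg]
    refine (norm_sum_le _ _).trans (sum_le_sum fun m _ => ?_)
    rw [norm_div, Complex.norm_natCast]
    exact div_le_div_of_nonneg_right (norm_ps_le _ _) (Nat.cast_nonneg _)
  · obtain ⟨C₁, hC₁, h1⟩ := hdec Λ wt hw Ap Bp M E ρ ϖ hE F hF
    obtain ⟨C₂, hC₂, h2⟩ := hls
    obtain ⟨β, hβ, C₃, hC₃, Z₀, h3⟩ := hsp
    have he : 0 < Real.exp 2 := Real.exp_pos _
    refine ⟨C₂ * (1 + Real.exp 2) * C₁ + C₃ * C₁, by positivity, β, hβ, Z₀, ?_⟩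
    intro H v₀ v₁ hH hHv hW Y hY
    obtain ⟨s, a, hs, hG, ha⟩ := h1 H v₀ v₁ hH hHv hW Y hY
    have hY1 : 1 ≤ Y := by
      refine le_trans ?_ hY
      exact Real.one_le_exp (by positivity)
    have hY0 : 0 < Y := by linarith
    have hB : 0 ≤ 1 / (∑ v ∈ Ico v₀ v₁, mE M H v) + 1 / (H : ℝ) ^ 2 := by positivity
    refine ⟨fun k => DPG s a k, hG, ?_, ?_⟩
    · intro K hK hKY
      have h4 := h2 (Real.exp 2 * Y) K s a (by
        have : 1 ≤ Real.exp 2 := Real.one_le_exp (by norm_num)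
        nlinarith) hK hs
      have h5 : 0 ≤ ∑ z ∈ s, ‖a z‖ ^ 2 := sum_nonneg fun _ _ => by positivity
      calc ∑ k ∈ FK K, ‖DPG s a k‖ ^ 2
          ≤ C₂ * (K + Real.exp 2 * Y) * ∑ z ∈ s, ‖a z‖ ^ 2 := h4
        _ ≤ C₂ * (Y + Real.exp 2 * Y) * ∑ z ∈ s, ‖a z‖ ^ 2 := by gcongr
        _ = C₂ * (1 + Real.exp 2) * (Y * ∑ z ∈ s, ‖a z‖ ^ 2) := by ring
        _ ≤ C₂ * (1 + Real.exp 2) *
            (C₁ * (1 / (∑ v ∈ Ico v₀ v₁, mE M H v) + 1 / (H : ℝ) ^ 2)) := by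
            gcongr
        _ ≤ _ := by
            have : 0 ≤ C₃ * C₁ * (1 / (∑ v ∈ Ico v₀ v₁, mE M H v) + 1 / (H : ℝ) ^ 2) := by
              positivity
            linarith
    · intro hZ U hU hcard
      have h4 := h3 Y hZ U hU hcard s a (fun z hz =>
        ⟨(one_le_nm hD).2 (prim_ne_zero (hs z hz).1), (hs z hz).2⟩)
      calc ∑ k ∈ U, ‖DPG s a k‖ ^ 2
          ≤ C₃ * Y * ∑ z ∈ s, ‖a z‖ ^ 2 := h4
        _ = C₃ * (Y * ∑ z ∈ s, ‖a z‖ ^ 2) := by ring
        _ ≤ C₃ * (C₁ * (1 / (∑ v ∈ Ico v₀ v₁, mE M H v) + 1 / (H : ℝ) ^ 2)) := by gcongr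
        _ ≤ _ := by
            have : 0 ≤ C₂ * (1 + Real.exp 2) * C₁ *
                (1 / (∑ v ∈ Ico v₀ v₁, mE M H v) + 1 / (H : ℝ) ^ 2) := by positivity
            linarith
  · obtain ⟨β, hβ, C₃, hC₃, Z₀, h3⟩ := hsp
    obtain ⟨C₄, hC₄, h4⟩ := win_mass hD hlat
    have he2 : 0 < Real.exp 2 := Real.exp_pos _
    refine ⟨C₃ * (Real.exp 2 * C₄), by positivity, β, hβ, max Z₀ (Real.exp 3), ?_⟩
    intro Z hZ U hU hcard
    have hZ0 : Z₀ ≤ Z := (le_max_left _ _).trans hZ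
    have hZ3 : Real.exp 3 ≤ Z := (le_max_right _ _).trans hZ
    have hZpos : 0 < Z := (Real.exp_pos _).trans_le hZ3
    have he12 : Real.exp 1 ≤ Real.exp 2 := Real.exp_le_exp.2 (by norm_num)
    set s := (pball t c (Real.exp 1 * Z)).filter
      (fun z => wt (Real.log (nm z) - Real.log Z) ≠ 0) with hs
    have hsw : s ⊆ win t c Z := by
      intro z hz
      rw [hs, mem_filter, mem_pball hD] at hz
      have hz0 := prim_ne_zero hz.1.1
      have h5 := wt_ne hw hZpos (nm_posR hD hz0) hz.2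
      rw [mem_win hD]
      refine ⟨(one_le_nm hD).2 hz0, le_trans ?_ h5.1, h5.2.trans ?_⟩
      · exact div_le_div_of_nonneg_left hZpos.le (Real.exp_pos _) he12
      · exact mul_le_mul_of_nonneg_right he12 hZpos.le
    have hGA : ∀ k : ℤ, GFw wt F Z k = DPG s
        (fun z => (F z : ℂ) * ((wt (Real.log (nm z) - Real.log Z) / nm z : ℝ) : ℂ)) k := by
      intro k
      unfold GFw DPG
      symm
      refine Finset.sum_filter_of_ne fun z _ hne h0 => ?_
      apply hne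
      simp [h0]
    have h5 := h3 Z hZ0 U hU hcard s
        (fun z => (F z : ℂ) * ((wt (Real.log (nm z) - Real.log Z) / nm z : ℝ) : ℂ)) (fun z hz => by
      have := hsw hz
      rw [mem_win hD] at this
      exact ⟨this.1, this.2.2⟩)
    have h6 : Z * ∑ z ∈ s,
        ‖(F z : ℂ) * ((wt (Real.log (nm z) - Real.log Z) / nm z : ℝ) : ℂ)‖ ^ 2 ≤
        Real.exp 2 * C₄ := by
      rw [Finset.mul_sum]
      calc ∑ z ∈ s, Z * ‖(F z : ℂ) * ((wt (Real.log (nm z) - Real.log Z) / nm z : ℝ) : ℂ)‖ ^ 2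
          ≤ ∑ z ∈ s, Real.exp 2 * (1 / (nm z : ℝ)) := by
            refine sum_le_sum fun z hz => ?_
            have hzw := hsw hz
            rw [mem_win hD] at hzw
            have hn : (0 : ℝ) < nm z := by exact_mod_cast hzw.1
            have h7 : ‖(F z : ℂ) * ((wt (Real.log (nm z) - Real.log Z) / nm z : ℝ) : ℂ)‖ ≤
                1 / nm z := by
              rw [norm_mul, Complex.norm_intCast, Complex.norm_real, Real.norm_eq_abs, abs_div,
                abs_of_pos hn]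
              have h8 : |(F z : ℝ)| ≤ 1 := abs_F_le hF.bd z
              calc |(F z : ℝ)| * (|wt (Real.log (nm z) - Real.log Z)| / nm z) ≤
                    1 * (1 / nm z) := by
                    refine mul_le_mul h8 ?_ (by positivity) zero_le_one
                    exact div_le_div_of_nonneg_right (hw.bd _) hn.le
                _ = 1 / nm z := one_mul _
            have h9 : Z ≤ Real.exp 2 * nm z := by
              have := hzw.2.1
              rw [div_le_iff₀ he2] at this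
              linarith
            calc Z * ‖(F z : ℂ) * ((wt (Real.log (nm z) - Real.log Z) / nm z : ℝ) : ℂ)‖ ^ 2 ≤
                  (Real.exp 2 * nm z) * (1 / nm z) ^ 2 := by
                  gcongr
              _ = Real.exp 2 * (1 / (nm z : ℝ)) := by field_simp
        _ = Real.exp 2 * ∑ z ∈ s, 1 / (nm z : ℝ) := by rw [Finset.mul_sum]
        _ ≤ Real.exp 2 * ∑ z ∈ win t c Z, 1 / (nm z : ℝ) := by
            gcongr
        _ ≤ Real.exp 2 * C₄ := by
            gcongr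
            exact h4 Z hZ3
    calc ∑ k ∈ U, ‖GFw wt F Z k‖ ^ 2
        = ∑ k ∈ U, ‖DPG s
            (fun z => (F z : ℂ) * ((wt (Real.log (nm z) - Real.log Z) / nm z : ℝ) : ℂ)) k‖ ^ 2 := by
          refine sum_congr rfl fun k _ => by rw [hGA k]
      _ ≤ C₃ * Z * ∑ z ∈ s,
            ‖(F z : ℂ) * ((wt (Real.log (nm z) - Real.log Z) / nm z : ℝ) : ℂ)‖ ^ 2 := h5
      _ = C₃ * (Z * ∑ z ∈ s,
            ‖(F z : ℂ) * ((wt (Real.log (nm z) - Real.log Z) / nm z : ℝ) : ℂ)‖ ^ 2) := by ring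
      _ ≤ C₃ * (Real.exp 2 * C₄) := by gcongr

end Pool.Agent.W790.EC
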